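import Pool.Agent.V5helper49.PTR.Stm

/-!
# Project PTR, job ADM
-/

set_option autoImplicit false

namespace Pool.Agent.V5helper29.PTR

open Finset Filter
open Pool.Agent.V5helper42.RS (W model W_upper W_mono)
open Pool.Agent.V5helper49.PTR

theorem t_ADM : S_ADM := by
  obtain ⟨C, hC, hW⟩ := W_upper
  obtain ⟨p0, hp0⟩ := eventually_atTop.1 hW
  refine ⟨min (1 / 12) (1 / (4 * C)), by positivity, min_le_left _ _, ?_⟩
  have hT : Tendsto (fun N : ℕ => Real.log ((N : ℝ) / 2)) atTop atTop :=
    Real.tendsto_log_atTop.comp (tendsto_natCast_atTop_atTop.atTop_div_const (by norm_num))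
  obtain ⟨N1, hN1⟩ := eventually_atTop.1 (hT.eventually (eventually_ge_atTop (W p0)))
  refine ⟨max N1 4, ?_⟩
  intro N hN a F hF hM p hp
  have hNN1 : N1 ≤ N := le_trans (le_max_left _ _) hN
  have hN4 : 4 ≤ N := le_trans (le_max_right _ _) hN
  have hNr : (4 : ℝ) ≤ N := by exact_mod_cast hN4
  obtain ⟨β, hβ⟩ : ∃ β, β = min (1 / 12 : ℝ) (1 / (4 * C)) := ⟨_, rfl⟩
  rw [← hβ] at hF
  have hβ1 : β ≤ 1 / 12 := by rw [hβ]; exact min_le_left _ _
  have hβ2 : β ≤ 1 / (4 * C) := by rw [hβ]; exact min_le_right _ _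
  have hβ0 : 0 < β := by rw [hβ]; positivity
  by_cases hWp : W p ≤ Real.log ((N : ℝ) / 2)
  · refine ⟨(N + p * a p - a p) % p, Nat.mod_lt _ hp.pos, ?_⟩
    intro t ht h
    have ht2 : (t : ℝ) ≤ N / 2 := by
      have h1 : (N : ℝ) ^ β ≤ (N : ℝ) ^ (1 / 2 : ℝ) :=
        Real.rpow_le_rpow_of_exponent_le (by linarith) (by linarith)
      have h2 : (N : ℝ) ^ (1 / 2 : ℝ) ≤ N / 2 := by
        rw [← Real.sqrt_eq_rpow]
        apply Real.sqrt_le_iff.2
        constructor
        · linarith
        · nlinarith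
      exact (hF t ht).2.trans (h1.trans h2)
    have htN : t ≤ N := by
      have : (t : ℝ) ≤ N := by linarith
      exact_mod_cast this
    have hlog : Real.log ((N : ℝ) / 2) ≤ Real.log ((N - t : ℕ) : ℝ) := by
      apply Real.log_le_log (by linarith)
      rw [Nat.cast_sub htN]
      linarith
    have h3 := hM t ht p hp (hWp.trans hlog)
    apply h3
    have h4 : t ≡ N + p * a p - a p [MOD p] := h
    have hle : a p ≤ N + p * a p :=
      le_trans (Nat.le_mul_of_pos_left _ hp.pos) (Nat.le_add_left _ _)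
    have h5 : t + a p ≡ N + p * a p [MOD p] := by
      have h8 := h4.add_right (a p)
      rwa [Nat.sub_add_cancel hle] at h8
    have h6 : N + p * a p ≡ N [MOD p] := by
      unfold Nat.ModEq
      rw [Nat.add_mul_mod_self_left]
    have h7 : t + a p ≡ t + (N - t) [MOD p] := by
      rw [Nat.add_sub_cancel' htN]
      exact h5.trans h6
    exact (Nat.ModEq.add_left_cancel' t h7).symm
  · push Not at hWp
    have hpp : p0 ≤ p := by
      by_contra h
      push Not at h
      exact absurd (hWp.trans_le ((W_mono h.le).trans (hN1 N hNN1))) (lt_irrefl _)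
    have h1 := hp0 p hpp
    have hlogN : 0 < Real.log N := Real.log_pos (by linarith)
    have h2 : Real.log N / 2 ≤ Real.log ((N : ℝ) / 2) := by
      rw [Real.log_div (by linarith) (by norm_num)]
      have h4 : Real.log (4 : ℝ) = 2 * Real.log 2 := by
        rw [show (4 : ℝ) = 2 ^ 2 by norm_num, Real.log_pow]
        norm_num
      have h5 : Real.log 4 ≤ Real.log N := Real.log_le_log (by norm_num) hNr
      linarith
    have h3 : β * Real.log N < Real.log p := by
      have h4 : β * (4 * C) ≤ 1 := by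
        have h8 := mul_le_mul_of_nonneg_right hβ2 (show 0 ≤ 4 * C by positivity)
        rwa [one_div, inv_mul_cancel₀ (by positivity)] at h8
      have h5 : C * (β * Real.log N) ≤ Real.log N / 4 := by nlinarith
      have h6 : C * (β * Real.log N) < C * Real.log p := by linarith
      exact lt_of_mul_lt_mul_left h6 hC.le
    have hp0' : (0 : ℝ) < p := by exact_mod_cast hp.pos
    have h4 : (N : ℝ) ^ β < p := by
      rw [Real.rpow_def_of_pos (by linarith)]
      calc Real.exp (Real.log N * β) < Real.exp (Real.log p) := by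
            apply Real.exp_lt_exp.2
            rw [mul_comm]
            exact h3
        _ = p := Real.exp_log hp0'
    have hcard : F.card < p := by
      have hsub : F ⊆ Icc 1 ⌊(N : ℝ) ^ β⌋₊ := by
        intro k hk
        rw [mem_Icc]
        exact ⟨(hF k hk).1, Nat.le_floor (hF k hk).2⟩
      have h5 := card_le_card hsub
      rw [Nat.card_Icc, Nat.add_sub_cancel] at h5
      have h6 : ((⌊(N : ℝ) ^ β⌋₊ : ℕ) : ℝ) ≤ (N : ℝ) ^ β := Nat.floor_le (by positivity)
      have h7 : ((F.card : ℕ) : ℝ) < p :=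
        lt_of_le_of_lt (le_trans (by exact_mod_cast h5) h6) h4
      exact_mod_cast h7
    have himg : (F.image (fun t => t % p)).card < (range p).card := by
      rw [card_range]
      exact lt_of_le_of_lt card_image_le hcard
    obtain ⟨b, hb1, hb2⟩ := exists_mem_notMem_of_card_lt_card himg
    exact ⟨b, mem_range.1 hb1, fun t ht h => hb2 (mem_image.2 ⟨t, ht, h⟩)⟩

end Pool.Agent.V5helper29.PTR
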